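import Pool.Agent.Helper20.QP.St3
import Pool.Agent.Helper86.QA.KDP
import Pool.Agent.Helper48.QP.M_COL
import Pool.Agent.Helper51.QP.CLS
import Pool.Agent.Helper95.QP.M_PKG
import Pool.Agent.Helper38.QP.M_BLL
import Pool.Agent.Helper78.QA.M_ACT
import Pool.Agent.Helper94.QA.M_CHV
import Pool.Agent.Helper89.QA.M_SW1
import Pool.Agent.Helper79.QD.M_RIJ
import Pool.Agent.Helper38.PQF.M_HS1

/-! # QP MODULE CRD: the annulus in the normalisation of the tube theorem -/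

set_option autoImplicit false

open Filter Topology Matrix Set Metric MeasureTheory
open scoped ComplexConjugate ENNReal

namespace Pool.Agent.Helper18.QP

open Pool.Agent.Helper35.PM (hs Mat SL IsDiscrete)
open Pool.Agent.Helper20.QD
open Pool.Agent.Helper20.QP
open Pool.Agent.Helper68.QC (nq Bel InvB Intw)
open Pool.Agent.Helper85.QT (HN Ann Cof Cls)
open Pool.Agent.Helper86.QA (mi gpq KD CF FDOn)

theorem mob_sub (A : SL) {z x : ℂ} (hz : den A z ≠ 0) (hx : den A x ≠ 0) :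
    mob A z - mob A x = (z - x) / (den A z * den A x) := by
  have h := Pool.Agent.Helper44.QA.CFG.c_det A
  unfold mob
  unfold den at hz hx ⊢
  rw [div_sub_div _ _ hz hx]
  congr 1
  linear_combination (z - x) * h

/-- The two fixed points of a hyperbolic element of `SU(1,1)`. -/
theorem hyp {A : SL} (hA : IsSU A) (hs : 0 < sh A) : ∃ (x y μ : ℂ), ‖x‖ = 1 ∧ ‖y‖ = 1 ∧ x ≠ y ∧
    den A x ≠ 0 ∧ den A y ≠ 0 ∧ mob A x = x ∧ mob A y = y ∧ ‖μ‖ < 1 ∧
    (∀ z, den A z ≠ 0 → (mob A z - x) * (z - y) = μ * ((z - x) * (mob A z - y))) := by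
  have h0 := Pool.Agent.Helper44.QA.CFG.su_ab hA
  obtain ⟨h1, h2⟩ := hA
  have h1' : A 1 1 = conj (A 0 0) := h1
  have h2' : A 1 0 = conj (A 0 1) := h2
  have hsh : sh A = (A 0 0).re ^ 2 - 1 := by
    unfold sh
    rw [Matrix.trace_fin_two]
    have e : ((A : Mat) 0 0 + (A : Mat) 1 1).re = 2 * (A 0 0).re := by
      show (A 0 0 + A 1 1).re = _
      rw [h1', Complex.add_re, Complex.conj_re]
      ring
    rw [e]
    ring
  rw [hsh] at hs
  obtain ⟨s, s1, s2⟩ : ∃ s : ℝ, s ^ 2 = (A 0 0).re ^ 2 - 1 ∧ 0 < (A 0 0).re * s := by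
    rcases lt_trichotomy (A 0 0).re 0 with h | h | h
    · refine ⟨-Real.sqrt ((A 0 0).re ^ 2 - 1), ?_, ?_⟩
      · rw [neg_sq, Real.sq_sqrt hs.le]
      · have := Real.sqrt_pos.2 hs
        nlinarith
    · rw [h] at hs
      norm_num at hs
    · refine ⟨Real.sqrt ((A 0 0).re ^ 2 - 1), ?_, ?_⟩
      · rw [Real.sq_sqrt hs.le]
      · exact mul_pos h (Real.sqrt_pos.2 hs)
  set a : ℂ := A 0 0 with ha
  set b : ℂ := A 0 1 with hb
  have hbn : 0 < b.re ^ 2 + b.im ^ 2 := by nlinarith [sq_nonneg a.im]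
  have hb0 : b ≠ 0 := by
    intro h
    rw [h] at hbn
    simp at hbn
  have hcb : conj b ≠ 0 := by
    intro h
    exact hb0 (by simpa using h)
  have hca : conj a = a.re - Complex.I * a.im := by
    apply Complex.ext <;> simp
  have haa : a = a.re + Complex.I * a.im := by
    apply Complex.ext <;> simp
  have hbb : b * conj b = ((a.re ^ 2 + a.im ^ 2 - 1 : ℝ) : ℂ) := by
    rw [Complex.mul_conj, Complex.normSq_apply]
    congr 1
    linarith
  have hI : (Complex.I : ℂ) ^ 2 = -1 := Complex.I_sq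
  have s1' : (s : ℂ) ^ 2 = (a.re : ℂ) ^ 2 - 1 := by
    rw [← Complex.ofReal_pow, s1]
    push_cast
    ring
  have hbb' : b * conj b = (a.re : ℂ) ^ 2 + (a.im : ℂ) ^ 2 - 1 := by
    rw [hbb]
    push_cast
    ring
  -- general facts for a root
  have key : ∀ t : ℝ, t ^ 2 = a.re ^ 2 - 1 → ‖(Complex.I * a.im + t) / conj b‖ = 1 ∧
      den A ((Complex.I * a.im + t) / conj b) = a.re + t ∧
      (den A ((Complex.I * a.im + t) / conj b) ≠ 0) ∧
      mob A ((Complex.I * a.im + t) / conj b) = (Complex.I * a.im + t) / conj b := by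
    intro t ht
    have ht' : (t : ℂ) ^ 2 = (a.re : ℂ) ^ 2 - 1 := by
      rw [← Complex.ofReal_pow, ht]
      push_cast
      ring
    have d1 : den A ((Complex.I * a.im + t) / conj b) = a.re + t := by
      show A 1 0 * ((Complex.I * a.im + t) / conj b) + A 1 1 = a.re + t
      rw [h2', h1', hca, mul_div_cancel₀ _ hcb]
      ring
    have d2 : ((a.re : ℂ) + t) ≠ 0 := by
      intro h
      have e : ((a.re : ℂ) + t) * (a.re - t) = 1 := by linear_combination -ht'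
      rw [h, zero_mul] at e
      exact zero_ne_one e
    have d3 : den A ((Complex.I * a.im + t) / conj b) ≠ 0 := by rw [d1]; exact d2
    refine ⟨?_, d1, d3, ?_⟩
    · have e1 : ‖(Complex.I * a.im + t) / conj b‖ ^ 2 = 1 := by
        rw [norm_div, div_pow, RCLike.norm_conj, Complex.sq_norm, Complex.sq_norm,
          Complex.normSq_apply, Complex.normSq_apply, div_eq_one_iff_eq (by nlinarith)]
        simp
        nlinarith
      have e2 := norm_nonneg ((Complex.I * a.im + t) / conj b)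
      nlinarith
    · have e3 : mob A ((Complex.I * a.im + t) / conj b) =
          (a * ((Complex.I * a.im + t) / conj b) + b) / den A ((Complex.I * a.im + t) / conj b) := rfl
      rw [e3, d1, div_eq_iff d2]
      field_simp
      linear_combination (Complex.I * a.im + t) * haa + hbb' + (a.im : ℂ) ^ 2 * hI - ht'
  obtain ⟨x1, x2, x3, x4⟩ := key s s1
  obtain ⟨y1, y2, y3, y4⟩ := key (-s) (by rw [neg_sq]; exact s1)
  have hxy : (Complex.I * a.im + s) / conj b ≠ (Complex.I * a.im + (-s : ℝ)) / conj b := by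
    intro h
    have := (div_left_inj' hcb).1 h
    have h3 : (s : ℂ) = ((-s : ℝ) : ℂ) := add_left_cancel this
    have h4 : s = -s := by exact_mod_cast h3
    have : s = 0 := by linarith
    rw [this] at s2
    simp at s2
  refine ⟨_, _, den A ((Complex.I * a.im + (-s : ℝ)) / conj b) /
    den A ((Complex.I * a.im + s) / conj b), x1, y1, hxy, x3, y3, x4, y4, ?_, ?_⟩
  · rw [x2, y2, norm_div, div_lt_one (norm_pos_iff.2 (x2 ▸ x3))]
    rw [← Complex.ofReal_add, ← Complex.ofReal_add, Complex.norm_real, Complex.norm_real,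
      Real.norm_eq_abs, Real.norm_eq_abs]
    apply sq_lt_sq.1
    nlinarith
  · intro z hz
    have e1 := mob_sub A hz x3
    have e2 := mob_sub A hz y3
    rw [x4] at e1
    rw [y4] at e2
    rw [e1, e2]
    field_simp

/-- A zero free holomorphic function on the disc has a holomorphic logarithm. -/
theorem log_disc {h : ℂ → ℂ} (hd : DifferentiableOn ℂ h D) (h0 : ∀ z ∈ D, h z ≠ 0) :
    ∃ g : ℂ → ℂ, DifferentiableOn ℂ g D ∧ ∀ z ∈ D, Complex.exp (g z) = h z := by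
  have hd' : DifferentiableOn ℂ (fun z => deriv h z / h z) D :=
    (hd.deriv isOpen_ball).div hd h0
  obtain ⟨F, hF⟩ := hd'.isExactOn_ball
  have hk : ∀ z ∈ D, HasDerivAt (fun z => h z * Complex.exp (-F z)) 0 z := by
    intro z hz
    have h1 : HasDerivAt h (deriv h z) z :=
      (hd.differentiableAt (isOpen_ball.mem_nhds hz)).hasDerivAt
    have h2 := h1.mul ((hF z hz).neg.cexp)
    have e : deriv h z * Complex.exp (-F z) + h z * (Complex.exp (-F z) * -(deriv h z / h z)) = 0 := by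
      have := h0 z hz
      field_simp
      ring
    rw [← e]
    exact h2
  have hconst : ∀ z ∈ D, h z * Complex.exp (-F z) = h 0 * Complex.exp (-F 0) := by
    intro z hz
    have hz0 : (0 : ℂ) ∈ D := mem_ball_self one_pos
    refine (convex_ball (0 : ℂ) 1).is_const_of_fderivWithin_eq_zero (𝕜 := ℂ)
      (f := fun z => h z * Complex.exp (-F z)) (fun z hz => (hk z hz).differentiableAt.differentiableWithinAt)
      (fun z hz => ?_) hz hz0
    rw [fderivWithin_of_isOpen isOpen_ball hz]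
    have := (hk z hz).hasFDerivAt.fderiv
    rw [this]
    ext
    simp
  have hc : h 0 * Complex.exp (-F 0) ≠ 0 :=
    mul_ne_zero (h0 0 (mem_ball_self one_pos)) (Complex.exp_ne_zero _)
  refine ⟨fun z => F z + Complex.log (h 0 * Complex.exp (-F 0)), ?_, ?_⟩
  · exact fun z hz => ((hF z hz).differentiableAt.add_const _).differentiableWithinAt
  · intro z hz
    rw [Complex.exp_add, Complex.exp_log hc, ← hconst z hz, Complex.exp_neg]
    field_simp

theorem ar_m2 {F0 : Set ℂ} (hm : MeasurableSet F0) (hs : F0 ⊆ ball 0 1) :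
    Pool.Agent.Helper86.QA.m2 F0 = ar F0 := by
  unfold Pool.Agent.Helper86.QA.m2
  rw [withDensity_apply _ hm, Measure.restrict_restrict hm, Set.inter_eq_self_of_subset_left hs]
  rfl

theorem m2_le (hSUB : StSUB) (hMET : StMET) {Γ : Type} [Group Γ] {τ : Γ →* SL} (hτ : Fuch τ)
    {F0 : Set ℂ} (hF : FD τ F0) {a0 : ℝ} (ha : (∫ z in F0, 4 / (1 - ‖z‖ ^ 2) ^ 2) ≤ a0) :
    Pool.Agent.Helper86.QA.m2 F0 ≤ ENNReal.ofReal a0 := by
  have hP := Pool.Agent.Helper95.QP.hPKG hSUB (Pool.Agent.Helper38.QP.hBLL hSUB hMET) Γ τ F0 hτ hF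
  rw [ar_m2 hF.mD hF.sub, ← ENNReal.ofReal_toReal hP.2.1, hP.2.2]
  exact ENNReal.ofReal_le_ofReal ha

/-- Powers of a hyperbolic element move every point of the disc to the attracting fixed point. -/
theorem attr {A : SL} {l : ℝ} {q : ℂ → ℂ} (h : SC A l q) {x y μ : ℂ}
    (hy : ‖y‖ = 1) (hμ : ‖μ‖ < 1)
    (hrel : ∀ z, den A z ≠ 0 → (mob A z - x) * (z - y) = μ * ((z - x) * (mob A z - y)))
    (hd : ∀ z ∈ D, den A z ≠ 0)
    {w : ℂ} (hw : w ∈ Sm (Real.pi / l)) :
    Tendsto (fun n : ℕ => q (w + n)) atTop (𝓝 x) := by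
  have hwn : ∀ n : ℕ, w + n ∈ Sm (Real.pi / l) := by
    intro n
    obtain ⟨h1, h2⟩ := hw
    refine ⟨?_, ?_⟩ <;> simpa using by assumption
  have hqD : ∀ n : ℕ, q (w + n) ∈ D := fun n => h.bij.mapsTo (hwn n)
  have hne : ∀ n : ℕ, q (w + n) - y ≠ 0 := by
    intro n h0
    have h1 := hqD n
    rw [sub_eq_zero.1 h0, mem_ball, dist_zero_right, hy] at h1
    exact lt_irrefl _ h1
  have hstep : ∀ n : ℕ, (q (w + (n + 1 : ℕ)) - x) / (q (w + (n + 1 : ℕ)) - y) =
      μ * ((q (w + n) - x) / (q (w + n) - y)) := by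
    intro n
    have e : q (w + (n + 1 : ℕ)) = mob A (q (w + n)) := by
      rw [← h.per _ (hwn n)]
      push_cast
      ring_nf
    have h1 := hrel _ (hd _ (hqD n))
    rw [← e] at h1
    have n1 := hne (n + 1)
    have n2 := hne n
    rw [div_eq_iff n1]
    field_simp
    linear_combination h1
  have hX : ∀ n : ℕ, (q (w + n) - x) / (q (w + n) - y) =
      μ ^ n * ((q (w + (0 : ℕ)) - x) / (q (w + (0 : ℕ)) - y)) := by
    intro n
    induction n with
    | zero => simp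
    | succ n ih => rw [hstep n, ih, pow_succ]; ring
  have hX0 : Tendsto (fun n : ℕ => μ ^ n * ((q (w + (0 : ℕ)) - x) / (q (w + (0 : ℕ)) - y)))
      atTop (𝓝 0) := by
    have := (tendsto_pow_atTop_nhds_zero_of_norm_lt_one hμ).mul_const
      ((q (w + (0 : ℕ)) - x) / (q (w + (0 : ℕ)) - y))
    rwa [zero_mul] at this
  rw [tendsto_iff_norm_sub_tendsto_zero]
  have h2 : Tendsto (fun n : ℕ =>
      ‖μ ^ n * ((q (w + (0 : ℕ)) - x) / (q (w + (0 : ℕ)) - y))‖ * 2) atTop (𝓝 0) := by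
    have := hX0.norm.mul_const 2
    rwa [norm_zero, zero_mul] at this
  refine squeeze_zero (fun n => norm_nonneg _) (fun n => ?_) h2
  have e : q (w + n) - x = (q (w + n) - x) / (q (w + n) - y) * (q (w + n) - y) := by
    rw [div_mul_cancel₀ _ (hne n)]
  rw [e, norm_mul, hX n]
  refine mul_le_mul_of_nonneg_left ?_ (norm_nonneg _)
  have h3 := hqD n
  rw [mem_ball, dist_zero_right] at h3
  calc ‖q (w + n) - y‖ ≤ ‖q (w + n)‖ + ‖y‖ := norm_sub_le _ _
    _ ≤ 2 := by linarith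

/-- The matrix which moves `p` to infinity and `p'` to `0`. -/
theorem gpq_all (p p' : ℂ) (hpp : p' ≠ p) : (gpq p p') 1 0 = 1 ∧ (gpq p p') 1 1 = -p ∧
    (gpq p p') 0 0 = - mi p p' ∧ (gpq p p') 0 1 = mi p p' * p' ∧ mi p p' * p' = mi p p' * p - 1 ∧
    den (gpq p p') p = 0 ∧ mob (gpq p p') p' = 0 ∧
    ∀ z, z ≠ p → den (gpq p p') z ≠ 0 ∧ mob (gpq p p') z = mi p z - mi p p' := by
  obtain ⟨c1, c2, c3, c4⟩ := Pool.Agent.Helper86.QA.gpq_facts Pool.Agent.Helper94.QA.hCHV p p'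
  have h11 : (gpq p p') 1 1 = -p := by
    rw [c2, one_mul] at c1
    linear_combination c1
  have hdet := Pool.Agent.Helper44.QA.CFG.c_det (gpq p p')
  have he : mi p p' * p' = mi p p' * p - 1 := by
    unfold mi
    have : p' - p ≠ 0 := sub_ne_zero.2 hpp
    field_simp
    ring
  refine ⟨c2, h11, c3, ?_, he, c1, ?_, c4⟩
  · rw [c2, h11, c3] at hdet
    linear_combination -hdet - he
  · have := (c4 p' hpp).2
    rw [sub_self] at this
    exact this

/-- The element of `α` is diagonal in the new normalisation. -/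
theorem diag_part (N : SL) {p p' : ℂ} (hpp : p' ≠ p) (h1 : den N p ≠ 0) (h2 : mob N p = p)
    (h3 : den N p' ≠ 0) (h4 : mob N p' = p') :
    (gpq p p' * N * (gpq p p')⁻¹) 0 1 = 0 ∧ (gpq p p' * N * (gpq p p')⁻¹) 1 0 = 0 := by
  obtain ⟨c10, c11, c00, c01, he, -, -, -⟩ := gpq_all p p' hpp
  obtain ⟨i00, i01, i10, i11⟩ := Pool.Agent.Helper44.QA.CFG.c_inv (gpq p p')
  have e1 : N 0 0 * p + N 0 1 = p * (N 1 0 * p + N 1 1) := by
    have h2' : (N 0 0 * p + N 0 1) / (N 1 0 * p + N 1 1) = p := h2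
    have := (div_eq_iff (show N 1 0 * p + N 1 1 ≠ 0 from h1)).1 h2'
    exact this
  have e2 : N 0 0 * p' + N 0 1 = p' * (N 1 0 * p' + N 1 1) := by
    have h4' : (N 0 0 * p' + N 0 1) / (N 1 0 * p' + N 1 1) = p' := h4
    have := (div_eq_iff (show N 1 0 * p' + N 1 1 ≠ 0 from h3)).1 h4'
    exact this
  constructor
  · rw [Pool.Agent.Helper44.QA.CFG.c_mul, Pool.Agent.Helper44.QA.CFG.c_mul,
      Pool.Agent.Helper44.QA.CFG.c_mul, i01, i11, c00, c01]
    linear_combination (mi p p') ^ 2 * e2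
  · rw [Pool.Agent.Helper44.QA.CFG.c_mul, Pool.Agent.Helper44.QA.CFG.c_mul,
      Pool.Agent.Helper44.QA.CFG.c_mul, i00, i10, c10, c11]
    linear_combination -e1

theorem diag_comm {X Y : SL} (h1 : X 0 1 = 0 ∧ X 1 0 = 0) (h2 : Y 0 1 = 0 ∧ Y 1 0 = 0) :
    X * Y = Y * X := by
  ext i j
  fin_cases i <;> fin_cases j <;>
    simp [Pool.Agent.Helper44.QA.CFG.c_mul, h1.1, h1.2, h2.1, h2.2, mul_comm]

theorem anti_comm {X Y : SL} (h1 : X 0 0 = 0 ∧ X 1 1 = 0) (h2 : Y 0 1 = 0 ∧ Y 1 0 = 0) :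
    X * Y = Y⁻¹ * X := by
  obtain ⟨i00, i01, i10, i11⟩ := Pool.Agent.Helper44.QA.CFG.c_inv Y
  ext i j
  fin_cases i <;> fin_cases j <;>
    simp [Pool.Agent.Helper44.QA.CFG.c_mul, h1.1, h1.2, h2.1, h2.2, i00, i01, i10, i11, mul_comm]

/-- The multiplier and the logarithmic coordinate of the annulus. -/
theorem log_part {M : ℝ} {q h : ℂ → ℂ} {κ : ℂ} (hq : DifferentiableOn ℂ q (Sm M))
    (hqD : MapsTo q (Sm M) D)
    (hlog : ∃ g : ℂ → ℂ, DifferentiableOn ℂ g D ∧ ∀ z ∈ D, Complex.exp (g z) = h z)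
    (hper : ∀ w ∈ Sm M, h (q (w + 1)) = κ * h (q w))
    (hinf : ∃ w ∈ Sm M, Tendsto (fun n : ℕ => ‖h (q (w + n))‖) atTop atTop) :
    ∃ (lam : ℂ) (G : ℂ → ℂ), 0 < lam.re ∧ Complex.exp lam = κ ∧ DifferentiableOn ℂ G (Sm M) ∧
    (∀ w ∈ Sm M, G (w + 1) = G w + 1) ∧ ∀ w ∈ Sm M, Complex.exp (lam * G w) = h (q w) := by
  obtain ⟨g, hg, hge⟩ := hlog
  obtain ⟨w0, hw0, hinf⟩ := hinf
  have hop : IsOpen (Sm M) :=
    (isOpen_lt continuous_const Complex.continuous_im).inter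
      (isOpen_lt Complex.continuous_im continuous_const)
  have hcv : Convex ℝ (Sm M) := (convex_halfSpace_im_gt 0).inter (convex_halfSpace_im_lt M)
  have hadd : ∀ w ∈ Sm M, w + 1 ∈ Sm M := by
    intro w hw
    obtain ⟨h1, h2⟩ := hw
    refine ⟨?_, ?_⟩ <;> simpa using by assumption
  have hwn : ∀ n : ℕ, w0 + n ∈ Sm M := by
    intro n
    obtain ⟨h1, h2⟩ := hw0
    refine ⟨?_, ?_⟩ <;> simpa using by assumption
  set L : ℂ → ℂ := fun w => g (q w) with hLdef
  have hL : DifferentiableOn ℂ L (Sm M) := hg.comp hq hqD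
  have hLe : ∀ w ∈ Sm M, Complex.exp (L w) = h (q w) := fun w hw => hge _ (hqD hw)
  have hne : ∀ w ∈ Sm M, h (q w) ≠ 0 := fun w hw => by
    rw [← hLe w hw]
    exact Complex.exp_ne_zero _
  set E : ℂ → ℂ := fun w => L (w + 1) - L w with hE
  have hEe : ∀ w ∈ Sm M, Complex.exp (E w) = κ := by
    intro w hw
    show Complex.exp (L (w + 1) - L w) = κ
    rw [Complex.exp_sub, hLe _ (hadd w hw), hLe w hw, hper w hw, mul_div_cancel_right₀ _ (hne w hw)]
  have hEd : ∀ w ∈ Sm M, DifferentiableAt ℂ E w := by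
    intro w hw
    have h1 : DifferentiableAt ℂ L w := hL.differentiableAt (hop.mem_nhds hw)
    have h2 : DifferentiableAt ℂ L (w + 1) := hL.differentiableAt (hop.mem_nhds (hadd w hw))
    exact (h2.comp w (differentiableAt_id.add_const 1)).sub h1
  have hE0 : ∀ w ∈ Sm M, deriv E w = 0 := by
    intro w hw
    have h1 := (hEd w hw).hasDerivAt.cexp
    have h2 : HasDerivAt (fun w => Complex.exp (E w)) 0 w := by
      refine (hasDerivAt_const w κ).congr_of_eventuallyEq ?_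
      filter_upwards [hop.mem_nhds hw] with v hv using hEe v hv
    have h3 := h1.unique h2
    exact (mul_eq_zero.1 h3).resolve_left (Complex.exp_ne_zero _)
  have hEc : ∀ w ∈ Sm M, E w = E w0 := by
    intro w hw
    refine hcv.is_const_of_fderivWithin_eq_zero (𝕜 := ℂ)
      (fun z hz => (hEd z hz).differentiableWithinAt) (fun z hz => ?_) hw hw0
    rw [fderivWithin_of_isOpen hop hz]
    have := (hEd z hz).hasDerivAt.hasFDerivAt.fderiv
    rw [this, hE0 z hz]
    ext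
    simp
  have hexp : Complex.exp (E w0) = κ := hEe w0 hw0
  have hiter : ∀ n : ℕ, h (q (w0 + n)) = κ ^ n * h (q w0) := by
    intro n
    induction n with
    | zero => simp
    | succ n ih =>
      have e : w0 + ((n + 1 : ℕ) : ℂ) = (w0 + n) + 1 := by
        push_cast
        ring
      rw [e, hper _ (hwn n), ih, pow_succ]
      ring
  have hre : 0 < (E w0).re := by
    by_contra hcon
    push Not at hcon
    have h1 : ‖κ‖ ≤ 1 := by
      rw [← hexp, Complex.norm_exp]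
      exact Real.exp_le_one_iff.2 hcon
    have h2 := (hinf.eventually_gt_atTop ‖h (q w0)‖).exists
    obtain ⟨n, hn⟩ := h2
    rw [hiter n, norm_mul, norm_pow] at hn
    have h3 : ‖κ‖ ^ n ≤ 1 := pow_le_one₀ (norm_nonneg _) h1
    nlinarith [norm_nonneg (h (q w0))]
  have hlam : E w0 ≠ 0 := by
    intro h0
    rw [h0] at hre
    simp at hre
  refine ⟨E w0, fun w => L w / E w0, hre, hexp, hL.div_const _, ?_, ?_⟩
  · intro w hw
    have h1 : L (w + 1) = L w + E w0 := by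
      rw [← hEc w hw]
      show L (w + 1) = L w + (L (w + 1) - L w)
      ring
    show L (w + 1) / E w0 = L w / E w0 + 1
    rw [h1, add_div, div_self hlam]
  · intro w hw
    show Complex.exp (E w0 * (L w / E w0)) = _
    rw [mul_div_cancel₀ _ hlam]
    exact hLe w hw

theorem hCRD (hSUB : StSUB) (hMET : StMET) (hHY2 : StHY2)
    (hCEN : StCEN) (hCOL : StCOL) (hATGO : StATGO) (hAKDG : StAKDG) (hQCNF : StQCNF)
    (hQDWOU : Pool.Agent.Helper20.QD.StWOU) : StCRD := by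
  intro Γ _ σ ρ κ k l m1 C3 a0 α q φ hTF hA0 hI hPrim hSC hl hm1 hHN hMap hMC
  have hl0 := hSC.l0
  have hM : 0 < Real.pi / l := div_pos Real.pi_pos hl0
  obtain ⟨S1, S2, S3, S4, S5, -⟩ := id hSUB
  have hA := hI.fs.su α
  have hshp : 0 < sh (σ α) := by
    rw [← hSC.lsh]
    exact pow_pos (Real.sinh_pos_iff.2 (by linarith)) 2
  obtain ⟨x, y, μ, hx, hy, hxy, hdx, hdy, hfx, hfy, hμ, hrel⟩ := hyp hA hshp
  obtain ⟨w1, hw1⟩ : ∃ w1 : ℂ ≃ₜ ℂ, w1 = nq κ := ⟨_, rfl⟩
  have hint : ∀ γ, Intw (σ γ) (ρ γ) w1 := fun γ => by rw [hw1]; exact hI.int γ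
  rw [← hw1]
  have hTM : Pool.Agent.Helper86.QA.TM σ ρ w1 :=
    ⟨hI.fs, w1.isHomeomorph, fun γ z => ⟨(hint γ).1 z, (hint γ).2.1 z⟩⟩
  obtain ⟨hgood, hLam, hinn, hout⟩ := hATGO Γ σ ρ w1 hTM
  have hdD : ∀ γ, ∀ z ∈ DD, den (σ γ) z ≠ 0 := fun γ => (S1 _ (hI.fs.su γ)).2.1
  have hdD' : ∀ γ, ∀ z ∈ DD, den (ρ γ) (w1 z) ≠ 0 := fun γ z hz h =>
    hdD γ z hz (((hint γ).1 z).2 h)
  have heq : ∀ γ, ∀ z ∈ DD, w1 (mob (σ γ) z) = mob (ρ γ) (w1 z) := fun γ z hz =>
    (hint γ).2.1 z (hdD γ z hz)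
  have hDDD : D ⊆ DD := ball_subset_closedBall
  have hxDD : x ∈ DD := by rw [mem_closedBall, dist_zero_right, hx]
  have hyDD : y ∈ DD := by rw [mem_closedBall, dist_zero_right, hy]
  have hxSS : x ∈ SS := by rw [mem_sphere, dist_zero_right, hx]
  have hxD : x ∉ D := by
    intro h
    rw [mem_ball, dist_zero_right, hx] at h
    exact lt_irrefl _ h
  have hyD : y ∉ D := by
    intro h
    rw [mem_ball, dist_zero_right, hy] at h
    exact lt_irrefl _ h
  have hpp : w1 y ≠ w1 x := fun h => hxy (w1.injective h).symm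
  have hpL : w1 x ∈ Lam ρ := by
    rw [hLam]
    exact mem_image_of_mem _ hxSS
  obtain ⟨c10, c11, c00, c01, -, cd0, cm0, cg⟩ := gpq_all (w1 x) (w1 y) hpp
  obtain ⟨hkd, hcf1, hcf2⟩ := Pool.Agent.Helper86.QA.kd_pack Pool.Agent.Helper78.QA.hACT
    Pool.Agent.Helper94.QA.hCHV Pool.Agent.Helper89.QA.hSW1 Pool.Agent.Helper79.QD.hRIJ hAKDG
    Pool.Agent.Helper38.PQF.hs1 ρ (w1 x) (w1 y) hgood hpL hTF
  rw [hinn] at hkd hcf1
  set C : SL := gpq (w1 x) (w1 y) with hC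
  set B : Set ℂ := insert (- mi (w1 x) (w1 y)) (Pool.Agent.Helper86.QA.mb C '' out (Lam ρ)) with hB
  have hne : ∀ z, z ≠ x → w1 z ≠ w1 x := fun z hz h => hz (w1.injective h)
  have hdC : ∀ z, z ≠ x → den C (w1 z) ≠ 0 := fun z hz => (cg _ (hne z hz)).1
  have hDx : ∀ z ∈ D, z ≠ x := fun z hz h => hxD (h ▸ hz)
  have hDy : ∀ z ∈ D, z ≠ y := fun z hz h => hyD (h ▸ hz)
  -- injectivity of the map of the disc
  have hinj : ∀ z z', z ≠ x → z' ≠ x → mob C (w1 z) = mob C (w1 z') → z = z' := by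
    intro z z' hz hz' h
    rw [(cg _ (hne z hz)).2, (cg _ (hne z' hz')).2] at h
    exact w1.injective (Pool.Agent.Helper44.QA.CFG.mi_inj (hne z hz) (hne z' hz')
      (sub_left_injective h))
  -- equivariance
  have hequ : ∀ γ, ∀ z ∈ D, mob (C * ρ γ * C⁻¹) (mob C (w1 z)) = mob C (w1 (mob (σ γ) z)) := by
    intro γ z hz
    have h1 := (S4 (C * ρ γ * C⁻¹) C (w1 z) (hdC z (hDx z hz))).1
    have h2 := (S4 C (ρ γ) (w1 z) (hdD' γ z (hDDD hz))).1
    rw [← h1, inv_mul_cancel_right, h2, heq γ z (hDDD hz)]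
  have hσD : ∀ γ, ∀ z ∈ D, mob (σ γ) z ∈ D := fun γ z hz => (S1 _ (hI.fs.su γ)).2.2.1.mapsTo hz
  -- faithful
  have hfaith : ∀ γ, ρ γ = 1 → γ = 1 := by
    intro γ hγ
    have h0 : (0 : ℂ) ∈ D := mem_ball_self one_pos
    refine (hHY2 Γ σ hI.fs hTF).2.1 γ 0 h0 ?_
    apply w1.injective
    rw [heq γ 0 (hDDD h0), hγ]
    unfold mob
    simp
  have hrinj : ∀ γ δ, C * ρ γ * C⁻¹ = C * ρ δ * C⁻¹ → γ = δ := by
    intro γ δ h
    have h1 : ρ γ = ρ δ := by
      have := mul_right_cancel h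
      exact mul_left_cancel this
    have h2 : ρ (γ * δ⁻¹) = 1 := by rw [map_mul, map_inv, h1, mul_inv_cancel]
    exact mul_inv_eq_one.1 (hfaith _ h2)
  -- diagonal
  have hdiag : (C * ρ α * C⁻¹) 0 1 = 0 ∧ (C * ρ α * C⁻¹) 1 0 = 0 := by
    refine diag_part (ρ α) hpp (hdD' α x hxDD) ?_ (hdD' α y hyDD) ?_
    · rw [← heq α x hxDD, hfx]
    · rw [← heq α y hyDD, hfy]
  have hdet := Pool.Agent.Helper44.QA.CFG.c_det (C * ρ α * C⁻¹)
  rw [hdiag.1, zero_mul, sub_zero] at hdet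
  have hr11 : (C * ρ α * C⁻¹) 1 1 ≠ 0 := fun h => by rw [h, mul_zero] at hdet; exact zero_ne_one hdet
  obtain ⟨κ', hκ'⟩ : ∃ κ' : ℂ, κ' = (C * ρ α * C⁻¹) 0 0 / (C * ρ α * C⁻¹) 1 1 := ⟨_, rfl⟩
  have hmobα : ∀ ξ, mob (C * ρ α * C⁻¹) ξ = κ' * ξ := by
    intro ξ
    show ((C * ρ α * C⁻¹) 0 0 * ξ + (C * ρ α * C⁻¹) 0 1) /
      ((C * ρ α * C⁻¹) 1 0 * ξ + (C * ρ α * C⁻¹) 1 1) = κ' * ξ
    rw [hdiag.1, hdiag.2, hκ', add_zero, zero_mul, zero_add, mul_div_right_comm]
  -- the map of the disc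
  have hhol : DifferentiableOn ℂ w1 D := by
    rw [hw1]
    refine hQCNF k hI.k1 κ hI.bel D isOpen_ball ?_
    refine (ae_restrict_iff' isOpen_ball.measurableSet).2 (Eventually.of_forall fun z hz => ?_)
    refine hI.in0 z ?_
    rw [mem_ball, dist_zero_right] at hz
    exact hz.le
  have hhD : DifferentiableOn ℂ (fun z => mob C (w1 z)) D := by
    intro z hz
    have h1 := (S5 C (w1 z) (hdC z (hDx z hz))).differentiableAt
    exact h1.comp_differentiableWithinAt z (hhol z hz)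
  have hh0 : ∀ z ∈ D, mob C (w1 z) ≠ 0 := by
    intro z hz h
    rw [← cm0] at h
    exact hDy z hz (hinj z y (hDx z hz) hxy.symm h)
  have hlog := log_disc hhD hh0
  have hqD : MapsTo q (Sm (Real.pi / l)) D := hSC.bij.mapsTo
  have hper : ∀ w ∈ Sm (Real.pi / l), mob C (w1 (q (w + 1))) = κ' * mob C (w1 (q w)) := by
    intro w hw
    rw [hSC.per w hw, ← hequ α _ (hqD hw), hmobα]
  have hinf : ∃ w ∈ Sm (Real.pi / l), Tendsto (fun n : ℕ => ‖mob C (w1 (q (w + n)))‖) atTop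
      atTop := by
    refine ⟨((Real.pi / l / 2 : ℝ) : ℂ) * Complex.I, ?_, ?_⟩
    · refine ⟨?_, ?_⟩
      · simp
        positivity
      · simp
        have := hM
        linarith
    · have hw : ((Real.pi / l / 2 : ℝ) : ℂ) * Complex.I ∈ Sm (Real.pi / l) := by
        refine ⟨?_, ?_⟩
        · simp
          positivity
        · simp
          have := hM
          linarith
      have h1 := attr hSC hy hμ hrel (fun z hz => hdD α z (hDDD hz)) hw
      have hwn : ∀ n : ℕ, ((Real.pi / l / 2 : ℝ) : ℂ) * Complex.I + n ∈ Sm (Real.pi / l) := by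
        intro n
        obtain ⟨h1, h2⟩ := hw
        refine ⟨?_, ?_⟩ <;> simpa using by assumption
      set z : ℕ → ℂ := fun n => q (((Real.pi / l / 2 : ℝ) : ℂ) * Complex.I + n) with hz
      have hzD : ∀ n, z n ∈ D := fun n => hqD (hwn n)
      have h2 : Tendsto (fun n => w1 (z n) - w1 x) atTop (𝓝[≠] 0) := by
        rw [tendsto_nhdsWithin_iff]
        refine ⟨?_, Eventually.of_forall fun n => ?_⟩
        · have := ((w1.continuous.tendsto x).comp h1).sub_const (w1 x)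
          rwa [sub_self] at this
        · exact sub_ne_zero.2 (hne _ (hDx _ (hzD n)))
      have h3 := (Filter.tendsto_inv₀_nhdsNE_zero.comp h2)
      have h4 := tendsto_norm_cobounded_atTop.comp h3
      have h5 : Tendsto (fun n => ‖(w1 (z n) - w1 x)⁻¹‖ - ‖mi (w1 x) (w1 y)‖) atTop atTop :=
        tendsto_atTop_add_const_right _ _ h4
      refine tendsto_atTop_mono (fun n => ?_) h5
      show _ ≤ ‖mob C (w1 (z n))‖
      rw [(cg _ (hne _ (hDx _ (hzD n)))).2]
      have e : mi (w1 x) (w1 (z n)) = -(w1 (z n) - w1 x)⁻¹ := by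
        unfold mi
        rw [neg_div, one_div]
      rw [e]
      have := norm_sub_norm_le (-(w1 (z n) - w1 x)⁻¹) (mi (w1 x) (w1 y))
      rwa [norm_neg] at this
  obtain ⟨lam, G, hre, hexp, hGh, hG1, hGe⟩ := log_part (h := fun z => mob C (w1 z)) (κ := κ')
    hSC.hol hqD hlog hper hinf
  have hff : ∀ w ∈ Sm m1, Complex.exp (lam * G (φ w)) = mob C (w1 (q (φ w))) := fun w hw =>
    hGe _ (Pool.Agent.Helper48.QP.sab_sub (hMap hw))
  refine ⟨Pool.Agent.Helper20.QD.cj C ρ, C, mob C '' (w1 '' D), B, lam, G, fun γ => rfl, ?_, ?_, ?_,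
    rfl, fun z hz => hdC z (hDx z hz), hGe⟩
  · refine ⟨hkd, hre, hdiag, ?_, ?_, hGh, hG1, ?_, hm1, hHN.dif, ?_, hHN.inj, hHN.per, hMC, ?_⟩
    · show (C * ρ α * C⁻¹) 0 0 = Complex.exp lam * (C * ρ α * C⁻¹) 1 1
      rw [hexp, hκ', div_mul_cancel₀ _ hr11]
    · intro γ hγ
      have hα : α ≠ 1 := hPrim.1
      rcases hγ with hγ | hγ
      · have h1 := diag_comm (X := C * ρ γ * C⁻¹) (Y := C * ρ α * C⁻¹) hγ hdiag
        have h2 : C * ρ (γ * α) * C⁻¹ = C * ρ (α * γ) * C⁻¹ := by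
          rw [map_mul, map_mul]
          calc C * (ρ γ * ρ α) * C⁻¹ = (C * ρ γ * C⁻¹) * (C * ρ α * C⁻¹) := by group
            _ = (C * ρ α * C⁻¹) * (C * ρ γ * C⁻¹) := h1
            _ = _ := by group
        exact hPrim.2 γ (hrinj _ _ h2)
      · have h1 := anti_comm (X := C * ρ γ * C⁻¹) (Y := C * ρ α * C⁻¹) hγ hdiag
        have h2 : C * ρ (γ * α) * C⁻¹ = C * ρ (α⁻¹ * γ) * C⁻¹ := by
          rw [map_mul, map_mul, map_inv]
          calc C * (ρ γ * ρ α) * C⁻¹ = (C * ρ γ * C⁻¹) * (C * ρ α * C⁻¹) := by group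
            _ = (C * ρ α * C⁻¹)⁻¹ * (C * ρ γ * C⁻¹) := h1
            _ = _ := by group
        have h3 := hrinj _ _ h2
        refine hPrim.2 γ ((hCEN Γ σ hI.fs hTF).2.1 α γ 1 (-1) hα one_ne_zero ?_)
        rw [zpow_one, _root_.zpow_neg_one, h3, mul_inv_cancel_right]
    · have h1 : BijOn (fun z => mob C (w1 z)) D (mob C '' (w1 '' D)) := by
        refine ⟨fun z hz => mem_image_of_mem _ (mem_image_of_mem _ hz), ?_, ?_⟩
        · exact fun z hz z' hz' h => hinj z z' (hDx z hz) (hDx z' hz') h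
        · rintro _ ⟨_, ⟨z, hz, rfl⟩, rfl⟩
          exact ⟨z, hz, rfl⟩
      refine (h1.comp hSC.bij).congr ?_
      intro w hw
      exact (hGe w hw).symm
    · exact fun w hw => Pool.Agent.Helper48.QP.sab_sub (hMap hw)
    · intro γ hγ
      have h1 := (hCOL Γ σ hI.fs hTF α α l l q q hPrim hPrim hSC hSC hl hl).1 γ hγ
      rw [Set.disjoint_left] at h1 ⊢
      rintro _ ⟨_, ⟨w, hw, rfl⟩, rfl⟩ ⟨w', hw', h⟩
      have e1 : Complex.exp (lam * G (φ w)) = mob C (w1 (q (φ w))) := hff w hw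
      have e2 : Complex.exp (lam * G (φ w')) = mob C (w1 (q (φ w'))) := hff w' hw'
      have hqw : q (φ w) ∈ D := hqD (Pool.Agent.Helper48.QP.sab_sub (hMap hw))
      have hqw' : q (φ w') ∈ D := hqD (Pool.Agent.Helper48.QP.sab_sub (hMap hw'))
      have h2 : mob C (w1 (q (φ w'))) = mob C (w1 (mob (σ γ) (q (φ w)))) := by
        rw [← hequ γ _ hqw, ← e1, ← e2]
        exact h
      have h3 := hinj _ _ (hDx _ hqw') (hDx _ (hσD γ _ hqw)) h2
      exact h1 ⟨q (φ w), mem_image_of_mem _ (hMap hw), h3.symm⟩ (mem_image_of_mem _ (hMap hw'))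
  · -- areas
    have hone : OneSide ρ σ w1 := by
      refine ⟨w1.continuous.continuousOn, hhol, ?_, ?_, hI.fs, fun γ z hz =>
        ⟨hdD' γ z hz, heq γ z hz⟩⟩
      · rw [hinn]
        exact (w1.injective.injOn).bijOn_image
      · rw [hLam]
        exact (w1.injective.injOn).bijOn_image
    obtain ⟨F, s1, hF1, hF2⟩ := hcf1 σ w1 hone
    obtain ⟨τ, G', hG'⟩ := hQDWOU Γ ρ hgood
    obtain ⟨F', s2, hF3, hF4⟩ := hcf2 τ G' hG'
    obtain ⟨F0, hF0, hF0'⟩ := hA0 σ hI.fs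
    obtain ⟨F1, hF1', hF1''⟩ := hA0 τ hG'.fuch
    refine ⟨F, F', s1, s2, hF1, hF3, fun DA DB hDA hDB => ⟨?_, ?_⟩⟩
    · rw [(hF2 F0 DA hF0 hDA).2]
      exact m2_le hSUB hMET hI.fs hF0 hF0'
    · rw [(hF4 F1 DB hF1' hDB).2]
      exact m2_le hSUB hMET hG'.fuch hF1' hF1''
  · -- the closure of the annulus
    intro a ha ha0
    have haA : a ∉ mob C '' (w1 '' D) := fun h => ha (Or.inl h)
    have hfix : ∀ z ∈ DD, mob (σ α) z = z → z = x ∨ z = y := by
      intro z hz h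
      have h1 := hrel z (hdD α z hz)
      rw [h] at h1
      have h2 : (1 - μ) * ((z - x) * (z - y)) = 0 := by linear_combination h1
      have h3 : (1 - μ) ≠ 0 := by
        intro h4
        rw [← sub_eq_zero.1 h4, norm_one] at hμ
        exact lt_irrefl _ hμ
      rcases mul_eq_zero.1 ((mul_eq_zero.1 h2).resolve_left h3) with h5 | h5
      · exact Or.inl (sub_eq_zero.1 h5)
      · exact Or.inr (sub_eq_zero.1 h5)
    obtain ⟨ε, hε, hh⟩ := Pool.Agent.Helper51.QP.cls_part hSUB hMET hA hSC hl hfix w1 C cd0 hdC cm0 a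
      haA ha0
    refine ⟨ε, hε, ?_⟩
    rintro _ ⟨w, hw, rfl⟩
    have hw' : w ∈ Sm m1 := hw
    show ε ≤ ‖Complex.exp (lam * G (φ w)) - a‖
    rw [hff w hw']
    exact hh _ (hMap hw')

end Pool.Agent.Helper18.QP
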